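import Mathlib

namespace Pool.Agent.H.MP_1cfa3b_gt

open unitInterval NNReal

structure IsCCC {X : Type*} [MetricSpace X] (β : X → X → I → X) : Prop where
  cont : Continuous fun p : X × X × I => β p.1 p.2.1 p.2.2
  source : ∀ x y, β x y 0 = x
  target : ∀ x y, β x y 1 = y
  geod : ∀ x y s t, dist (β x y s) (β x y t) = |(s : ℝ) - t| * dist x y
  consistent : ∀ x y (s t : I), s < t →
    Set.range (β (β x y s) (β x y t)) = β x y '' Set.Icc s t
  conical : ∀ x y x' y' (t : I),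
    dist (β x y t) (β x' y' t) ≤ (1 - t) * dist x x' + t * dist y y'

def IsRay {X : Type*} [MetricSpace X] (β : X → X → I → X) (ξ : ℝ≥0 → X) : Prop :=
  Isometry ξ ∧ ∀ s : ℝ≥0, 0 < s → ∀ t : I, β (ξ 0) (ξ s) t = ξ (toNNReal t * s)

end Pool.Agent.H.MP_1cfa3b_gt
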