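import Pool.Agent.H.MP_1cfa3b_gt.Defs

namespace Pool.Agent.H.MP_1cfa3b_gt

open unitInterval NNReal Filter Topology Set

variable {X : Type*} [MetricSpace X] {β : X → X → I → X}

theorem IsCCC.reparam (h : IsCCC β) (x y : X) (s t : I) (hs : 0 < s) :
    β x (β x y s) t = β x y (t * s) := by
  have hr := h.consistent x y 0 s hs
  rw [h.source] at hr
  have hm : β x (β x y s) t ∈ β x y '' Icc 0 s := hr ▸ mem_range_self t
  obtain ⟨u, -, hu⟩ := hm
  have d0 : ∀ (z : X) (v : I), dist x (β x z v) = v * dist x z := by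
    intro z v
    have := h.geod x z 0 v
    rw [h.source] at this
    rw [this]
    simp [abs_of_nonneg v.2.1]
  have e1 := d0 (β x y s) t
  rw [← hu, d0 y u, d0 y s] at e1
  rw [← hu, ← dist_eq_zero, h.geod]
  rw [← abs_of_nonneg (dist_nonneg (x := x) (y := y)), ← abs_mul]
  simp only [Set.Icc.coe_mul, abs_eq_zero]
  linarith

noncomputable def tau (n : ℕ) (s : ℝ≥0) : I := projIcc (0 : ℝ) 1 zero_le_one ((s : ℝ) / n)

theorem tau_val {n : ℕ} {s : ℝ≥0} (hn : (s : ℝ) < n) : (tau n s : ℝ) = s / n := by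
  have hp : (0 : ℝ) < n := lt_of_le_of_lt s.2 hn
  have hm : (s : ℝ) / n ∈ Icc (0 : ℝ) 1 :=
    ⟨_root_.div_nonneg s.coe_nonneg hp.le, (_root_.div_le_one hp).2 hn.le⟩
  unfold tau
  rw [projIcc_of_mem _ hm]

theorem ev_lt (s : ℝ) : ∀ᶠ n : ℕ in (hyperfilter ℕ : Filter ℕ), s < n := by
  have : ∀ᶠ n : ℕ in atTop, s < n := tendsto_natCast_atTop_atTop.eventually (eventually_gt_atTop s)
  exact Nat.hyperfilter_le_atTop this

theorem limit_ray [ProperSpace X] (h : IsCCC β) (o : X) (R : ℝ) (m x : ℕ → X)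
    (hm : ∀ n, dist (m n) o ≤ R) (hx : ∀ n, dist (m n) (x n) = n) :
    ∃ ξ : ℝ≥0 → X, IsRay β ξ ∧
      ∀ s, Tendsto (fun n => β (m n) (x n) (tau n s)) (hyperfilter ℕ : Filter ℕ) (𝓝 (ξ s)) := by
  have dd : ∀ (n : ℕ) (s s' : ℝ≥0), (s : ℝ) < n → (s' : ℝ) < n →
      dist (β (m n) (x n) (tau n s)) (β (m n) (x n) (tau n s')) = |(s : ℝ) - s'| := by
    intro n s s' h1 h2
    have hp : (0 : ℝ) < n := lt_of_le_of_lt s.2 h1
    rw [h.geod, tau_val h1, tau_val h2, hx, ← _root_.sub_div, abs_div, abs_of_pos hp]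
    field_simp
  have t0 : ∀ n, tau n 0 = 0 := by
    intro n
    unfold tau
    simp
  have ex : ∀ s : ℝ≥0, ∃ z, Tendsto (fun n => β (m n) (x n) (tau n s))
      (hyperfilter ℕ : Filter ℕ) (𝓝 z) := by
    intro s
    have hc : IsCompact (Metric.closedBall o (R + s)) := isCompact_closedBall _ _
    obtain ⟨z, -, hz⟩ := hc.ultrafilter_le_nhds
      ((hyperfilter ℕ).map fun n => β (m n) (x n) (tau n s)) (by
        rw [Ultrafilter.coe_map, le_principal_iff, mem_map]
        filter_upwards [ev_lt s] with n hn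
        have hp : ((0 : ℝ≥0) : ℝ) < n := lt_of_le_of_lt s.2 hn
        have e := dd n s 0 hn hp
        rw [t0, h.source] at e
        simp only [mem_preimage, Metric.mem_closedBall]
        have := dist_triangle (β (m n) (x n) (tau n s)) (m n) o
        simp only [NNReal.coe_zero, sub_zero, abs_of_nonneg s.2] at e
        have e' : dist (β (m n) (x n) (tau n s)) (m n) = s := by simpa using e
        linarith [hm n])
    exact ⟨z, hz⟩
  choose ξ hξ using ex
  refine ⟨ξ, ⟨?_, ?_⟩, hξ⟩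
  · refine Isometry.of_dist_eq fun s s' => ?_
    have t1 := (hξ s).dist (hξ s')
    have t2 : Tendsto (fun n => dist (β (m n) (x n) (tau n s)) (β (m n) (x n) (tau n s')))
        (hyperfilter ℕ : Filter ℕ) (𝓝 (dist s s')) := by
      refine tendsto_const_nhds.congr' ?_
      filter_upwards [ev_lt s, ev_lt s'] with n h1 h2
      rw [dd n s s' h1 h2, NNReal.dist_eq]
    exact tendsto_nhds_unique t1 t2
  · intro s hs t
    have t1 : Tendsto (fun n => β (β (m n) (x n) (tau n 0)) (β (m n) (x n) (tau n s)) t)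
        (hyperfilter ℕ : Filter ℕ) (𝓝 (β (ξ 0) (ξ s) t)) :=
      (h.cont.tendsto (ξ 0, ξ s, t)).comp
        ((hξ 0).prodMk_nhds ((hξ s).prodMk_nhds tendsto_const_nhds))
    refine tendsto_nhds_unique t1 ((hξ _).congr' ?_)
    filter_upwards [ev_lt s] with n hn
    have hp : (0 : ℝ) < n := lt_of_le_of_lt s.2 hn
    have hs' : (0 : ℝ) < s := hs
    have h2 : ((toNNReal t * s : ℝ≥0) : ℝ) < n := by
      simp only [NNReal.coe_mul, coe_toNNReal]
      nlinarith [t.2.1, t.2.2]
    have h3 : 0 < tau n s := by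
      rw [← Subtype.coe_lt_coe, tau_val hn]
      exact div_pos hs' hp
    rw [t0, h.source, h.reparam _ _ _ _ h3]
    congr 1
    ext
    rw [tau_val h2, Set.Icc.coe_mul, tau_val hn]
    simp only [NNReal.coe_mul, coe_toNNReal]
    ring

theorem cocompact_ball {G : Type*} [Group G] [MulAction G X] [IsIsometricSMul G X]
    [CompactSpace (Quotient (MulAction.orbitRel G X))] (o : X) :
    ∃ R : ℝ, ∀ x : X, ∃ g : G, dist (g • x) o ≤ R := by
  let q : X → Quotient (MulAction.orbitRel G X) := Quotient.mk (MulAction.orbitRel G X)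
  have ho : IsOpenMap q := isOpenMap_quotient_mk'_mul
  obtain ⟨n, hn⟩ := (isCompact_univ (X := Quotient (MulAction.orbitRel G X))).elim_directed_cover
    (fun n : ℕ => q '' Metric.ball o n) (fun n => ho _ Metric.isOpen_ball) (by
      intro z _
      induction z using Quotient.inductionOn with
      | h x =>
        obtain ⟨n, hn⟩ := exists_nat_gt (dist x o)
        exact mem_iUnion.2 ⟨n, x, hn, rfl⟩)
    (directed_of_isDirected_le fun a b hab =>
      image_mono (Metric.ball_subset_ball (by exact_mod_cast hab)))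
  refine ⟨n, fun x => ?_⟩
  obtain ⟨y, hy, hq⟩ := hn (mem_univ (q x))
  obtain ⟨g, hg⟩ : y ∈ MulAction.orbit G x := Quotient.exact hq
  exact ⟨g, by
    have : g • x = y := hg
    rw [this]; exact (Metric.mem_ball.1 hy).le⟩

theorem main [ProperSpace X] (h : IsCCC β) (G : Type*) [Group G] [MulAction G X]
    [IsIsometricSMul G X] [CompactSpace (Quotient (MulAction.orbitRel G X))] :
    (∀ ξ, ¬ IsRay β ξ) ∨
      ∃ ξ η, IsRay β ξ ∧ IsRay β η ∧ ¬ ∃ C : ℝ, ∀ t, dist (ξ t) (η t) ≤ C := by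
  by_cases h0 : ∀ ξ, ¬ IsRay β ξ
  · exact Or.inl h0
  right
  push Not at h0
  obtain ⟨ζ, hζ, -⟩ := h0
  obtain ⟨R, hR⟩ := cocompact_ball (G := G) (ζ 0)
  choose g hg using fun n : ℕ => hR (ζ n)
  have d1 : ∀ n : ℕ, dist (g n • ζ n) (g n • ζ (2 * n)) = n := by
    intro n
    rw [dist_smul, hζ.dist_eq, NNReal.dist_eq]
    push_cast
    rw [abs_sub_comm, abs_of_nonneg] <;> linarith [(Nat.cast_nonneg n : (0 : ℝ) ≤ n)]
  have d2 : ∀ n : ℕ, dist (g n • ζ n) (g n • ζ 0) = n := by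
    intro n
    rw [dist_smul, hζ.dist_eq, NNReal.dist_eq]
    simp
  have d3 : ∀ n : ℕ, dist (g n • ζ (2 * n)) (g n • ζ 0) = 2 * n := by
    intro n
    rw [dist_smul, hζ.dist_eq, NNReal.dist_eq]
    simp
  obtain ⟨ξ, hξ, tξ⟩ := limit_ray h (ζ 0) R _ _ hg d1
  obtain ⟨η, hη, tη⟩ := limit_ray h (ζ 0) R _ _ hg d2
  refine ⟨ξ, η, hξ, hη, ?_⟩
  rintro ⟨C, hC⟩
  have key : ∀ s : ℝ≥0, 2 * (s : ℝ) ≤ dist (ξ s) (η s) := by
    intro s
    refine ge_of_tendsto ((tξ s).dist (tη s)) ?_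
    filter_upwards [ev_lt s] with n hn
    have hp : (0 : ℝ) < n := lt_of_le_of_lt s.2 hn
    have far : ∀ a b : X, dist a b = n → dist (β a b (tau n s)) b = n - s := by
      intro a b hab
      have := h.geod a b (tau n s) 1
      rw [h.target, tau_val hn, hab, abs_sub_comm, abs_of_nonneg] at this
      · rw [this]
        simp only [Set.Icc.coe_one]
        field_simp
      · simp only [Set.Icc.coe_one, sub_nonneg]
        exact (div_le_one hp).2 hn.le
    have f1 := far _ _ (d1 n)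
    have f2 := far _ _ (d2 n)
    have := dist_triangle4 (g n • ζ (2 * n)) (β (g n • ζ n) (g n • ζ (2 * n)) (tau n s))
      (β (g n • ζ n) (g n • ζ 0) (tau n s)) (g n • ζ 0)
    rw [d3, dist_comm (g n • ζ (2 * n)), f1, f2] at this
    linarith
  have k := key ⟨|C| + 1, by positivity⟩
  have := hC ⟨|C| + 1, by positivity⟩
  have h5 := le_abs_self C
  have h6 := abs_nonneg C
  have k' : 2 * (|C| + 1) ≤ _ := k
  linarith

end Pool.Agent.H.MP_1cfa3b_gt
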